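import Mathlib

/-!
# Decompositions of free modules
-/

set_option autoImplicit false

namespace Pool.Agent.Helper30K9.FJ4

open Module

variable {R V F : Type} [Ring R] [AddCommGroup V] [Module R V] [AddCommGroup F] [Module R F]

/-- a submodule `U ≃ R ^ n` which contains `A`, with a projection `ε` such that `φ ∘ ε = φ` -/
theorem exists_dec [Free R V] (A : Submodule R V) (hA : A.FG) (φ : V →ₗ[R] F)
    (hφ : (LinearMap.range φ).FG) :
    ∃ (U : Submodule R V) (n : ℕ) (_ : U ≃ₗ[R] (Fin n → R)) (ε : V →ₗ[R] V),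
      (∀ v, ε v ∈ U) ∧ (∀ v ∈ U, ε v = v) ∧ (∀ v, φ (ε v) = φ v) ∧ A ≤ U := by
  classical
  let b := Free.chooseBasis R V
  obtain ⟨s, hs⟩ := hA
  obtain ⟨t, ht⟩ := hφ
  have hlift : ∀ y ∈ t, ∃ v, φ v = y := by
    intro y hy
    have h1 : y ∈ LinearMap.range φ := ht ▸ Submodule.subset_span hy
    exact h1
  choose! l hl using hlift
  let I0 : Finset (Free.ChooseBasisIndex R V) :=
    (s.biUnion fun v => (b.repr v).support) ∪ (t.biUnion fun y => (b.repr (l y)).support)
  have hmem : ∀ v, (b.repr v).support ⊆ I0 →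
      v ∈ Submodule.span R (Set.range fun i : I0 => b i) := by
    intro v hv
    rw [← b.linearCombination_repr v, Finsupp.linearCombination_apply, Finsupp.sum]
    refine Submodule.sum_mem _ fun i hi => Submodule.smul_mem _ _ ?_
    exact Submodule.subset_span ⟨⟨i, hv hi⟩, rfl⟩
  obtain ⟨U, hU⟩ : ∃ U, U = Submodule.span R (Set.range fun i : I0 => b i) := ⟨_, rfl⟩
  have hbU : ∀ i ∈ I0, b i ∈ U := fun i hi => hU ▸ Submodule.subset_span ⟨⟨i, hi⟩, rfl⟩
  have hAU : A ≤ U := by
    rw [← hs, Submodule.span_le]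
    intro v hv
    rw [SetLike.mem_coe, hU]
    refine hmem v fun i hi => Finset.mem_union_left _ (Finset.mem_biUnion.2 ⟨v, hv, hi⟩)
  have hφU : ∀ v, ∃ u ∈ U, φ u = φ v := by
    intro v
    have h1 : LinearMap.range φ ≤ U.map φ := by
      rw [← ht, Submodule.span_le]
      intro y hy
      refine ⟨l y, ?_, hl y hy⟩
      rw [SetLike.mem_coe, hU]
      exact hmem _ fun i hi => Finset.mem_union_right _ (Finset.mem_biUnion.2 ⟨y, hy, hi⟩)
    exact h1 ⟨v, rfl⟩
  choose u hu hu' using hφU
  let ε : V →ₗ[R] V := b.constr ℕ fun i => if i ∈ I0 then b i else u (b i)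
  have hε1 : ∀ i ∈ I0, ε (b i) = b i := fun i hi => by
    rw [Basis.constr_basis, if_pos hi]
  have hε2 : ∀ i, i ∉ I0 → ε (b i) = u (b i) := fun i hi => by
    rw [Basis.constr_basis, if_neg hi]
  have hεU : ∀ v, ε v ∈ U := by
    intro v
    rw [Basis.constr_apply]
    refine Submodule.sum_mem _ fun i _ => Submodule.smul_mem _ _ ?_
    by_cases hi : i ∈ I0
    · simp only [if_pos hi]
      exact hbU i hi
    · simp only [if_neg hi]
      exact hu _
  have hεid : ∀ v ∈ U, ε v = v := by
    have h1 : U ≤ LinearMap.eqLocus ε LinearMap.id := by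
      rw [hU, Submodule.span_le]
      rintro _ ⟨i, rfl⟩
      exact hε1 i i.2
    exact fun v hv => h1 hv
  have hεφ : ∀ v, φ (ε v) = φ v := by
    have h1 : φ.comp ε = φ := by
      apply b.ext
      intro i
      rw [LinearMap.comp_apply]
      by_cases hi : i ∈ I0
      · rw [hε1 i hi]
      · rw [hε2 i hi, hu']
    exact fun v => LinearMap.congr_fun h1 v
  have hli : LinearIndependent R (fun i : I0 => b i) :=
    b.linearIndependent.comp _ Subtype.val_injective
  let b0 : Basis I0 R U := (Basis.span hli).map (LinearEquiv.ofEq _ _ hU.symm)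
  exact ⟨U, I0.card, (b0.reindex I0.equivFin).equivFun, ε, hεU, hεid, hεφ, hAU⟩

end Pool.Agent.Helper30K9.FJ4
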