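import Pool.Agent.Helper30K9.FJ4.Dec
import Pool.Agent.R630.FJ.Inn

/-!
# Kernels which consist of finitary linear transformations
-/

set_option autoImplicit false

namespace Pool.Agent.Helper30K9.FJ4

open Pool.Agent.Y110.FJ
open Pool.Agent.Y462.SS (Closed)
open Pool.Agent.R630.FJ (crit)

section aut

variable {C : ∀ (G : Type) [Group G], Prop} {R : Type} [Ring R]

/-- automorphisms of isomorphic modules -/
def autHom {M M' : Type} [AddCommGroup M] [Module R M] [AddCommGroup M'] [Module R M']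
    (e : M ≃ₗ[R] M') : (M ≃ₗ[R] M) →* (M' ≃ₗ[R] M') where
  toFun φ := e.symm.trans (φ.trans e)
  map_one' := by
    ext x
    show e (e.symm x) = x
    rw [LinearEquiv.apply_symm_apply]
  map_mul' φ ψ := by
    ext x
    show e (φ (ψ (e.symm x))) = e (φ (e.symm (e (ψ (e.symm x)))))
    rw [LinearEquiv.symm_apply_apply]

theorem autHom_inj {M M' : Type} [AddCommGroup M] [Module R M] [AddCommGroup M'] [Module R M']
    (e : M ≃ₗ[R] M') : Function.Injective (autHom e) := by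
  intro φ ψ h
  ext x
  have h1 : e (φ (e.symm (e x))) = e (ψ (e.symm (e x))) := LinearEquiv.congr_fun h (e x)
  rw [LinearEquiv.symm_apply_apply] at h1
  exact e.injective h1

theorem C_prod (hC : Closed C) (hR : ∀ n : ℕ, C ((Fin n → R) ≃ₗ[R] (Fin n → R)))
    {M : Type} [AddCommGroup M] [Module R M] {n : ℕ} (e : M ≃ₗ[R] (Fin n → R)) :
    C ((M × M) ≃ₗ[R] (M × M)) := by
  let e' : (M × M) ≃ₗ[R] (Fin (n + n) → R) :=
    ((e.prodCongr e).trans (LinearEquiv.sumArrowLequivProdArrow (Fin n) (Fin n) R R).symm).trans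
      (LinearEquiv.funCongrLeft R R finSumFinEquiv.symm)
  exact hC.of_injective _ _ (autHom e') (autHom_inj e') (hR (n + n))

end aut

section main

variable {C : ∀ (G : Type) [Group G], Prop} {R V G : Type} [Ring R] [AddCommGroup V] [Module R V]
  [Group G] (ρ : G →* (V ≃ₗ[R] V))

theorem hmul (a b : G) (v : V) : ρ (a * b) v = ρ a (ρ b v) := by
  rw [map_mul]
  rfl

theorem hinv1 (a : G) (v : V) : ρ a⁻¹ (ρ a v) = v := by
  rw [← hmul, inv_mul_cancel, map_one]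
  rfl

theorem hinv2 (a : G) (v : V) : ρ a (ρ a⁻¹ v) = v := by
  rw [← hmul, mul_inv_cancel, map_one]
  rfl

/-- the elements which preserve `U` and are trivial on the kernel of `ε` -/
def TT (U : Submodule R V) (ε : V →ₗ[R] V) : Subgroup G where
  carrier := {h | (∀ u ∈ U, ρ h u ∈ U) ∧ (∀ u ∈ U, ρ h⁻¹ u ∈ U) ∧ ∀ v, ε v = 0 → ρ h v = v}
  one_mem' := by
    refine ⟨fun u hu => ?_, fun u hu => ?_, fun v _ => ?_⟩
    · rw [map_one]; exact hu
    · rw [inv_one, map_one]; exact hu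
    · rw [map_one]; rfl
  mul_mem' := by
    rintro a b ⟨a1, a2, a3⟩ ⟨b1, b2, b3⟩
    refine ⟨fun u hu => ?_, fun u hu => ?_, fun v hv => ?_⟩
    · rw [hmul]; exact a1 _ (b1 u hu)
    · rw [mul_inv_rev, hmul]; exact b2 _ (a2 u hu)
    · rw [hmul, b3 v hv, a3 v hv]
  inv_mem' := by
    rintro a ⟨a1, a2, a3⟩
    refine ⟨a2, fun u hu => ?_, fun v hv => ?_⟩
    · rw [inv_inv]; exact a1 u hu
    · conv_lhs => rw [← a3 v hv]
      exact hinv1 ρ a v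

/-- the restriction to `U` -/
def rest (U : Submodule R V) (ε : V →ₗ[R] V) : TT ρ U ε →* ((U × U) ≃ₗ[R] (U × U)) where
  toFun h := LinearEquiv.prodCongr
    { toFun := fun u => ⟨ρ h u, h.2.1 u u.2⟩
      invFun := fun u => ⟨ρ (h : G)⁻¹ u, h.2.2.1 u u.2⟩
      left_inv := fun u => Subtype.ext (hinv1 ρ h u)
      right_inv := fun u => Subtype.ext (hinv2 ρ h u)
      map_add' := fun u v => Subtype.ext (map_add (ρ h) (u : V) v)
      map_smul' := fun c u => Subtype.ext (map_smul (ρ h) c (u : V)) } (LinearEquiv.refl R U)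
  map_one' := by
    apply LinearEquiv.ext
    rintro ⟨u, v⟩
    refine Prod.ext (Subtype.ext ?_) rfl
    show ρ 1 (u : V) = u
    rw [map_one]
    rfl
  map_mul' a b := by
    apply LinearEquiv.ext
    rintro ⟨u, v⟩
    refine Prod.ext (Subtype.ext ?_) rfl
    exact hmul ρ a b u

theorem rest_fst (U : Submodule R V) (ε : V →ₗ[R] V) (h : TT ρ U ε) (x : U × U) :
    ((rest ρ U ε h x).1 : V) = ρ h x.1 := rfl

theorem rest_snd (U : Submodule R V) (ε : V →ₗ[R] V) (h : TT ρ U ε) (x : U × U) :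
    (rest ρ U ε h x).2 = x.2 := rfl

/-- the linear map of the realization -/
def pm (U : Submodule R V) (e : V →ₗ[R] V) (g : G) (h1 : ∀ v, e v ∈ U) (h2 : ∀ v, ρ g (e v) ∈ U) :
    (U × U) →ₗ[R] (U × U) where
  toFun x := (⟨ρ g (e x.1) + x.2 - ρ g (e (ρ g⁻¹ x.2)),
      U.sub_mem (U.add_mem (h2 _) x.2.2) (h2 _)⟩,
    ⟨e (ρ g⁻¹ x.2) + x.1 - e x.1, U.sub_mem (U.add_mem (h1 _) x.1.2) (h1 _)⟩)
  map_add' x y := by
    refine Prod.ext (Subtype.ext ?_) (Subtype.ext ?_)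
    · show ρ g (e ((x.1 : V) + y.1)) + ((x.2 : V) + y.2) - ρ g (e (ρ g⁻¹ ((x.2 : V) + y.2))) =
        (ρ g (e x.1) + x.2 - ρ g (e (ρ g⁻¹ x.2))) + (ρ g (e y.1) + y.2 - ρ g (e (ρ g⁻¹ y.2)))
      simp only [map_add]
      abel
    · show e (ρ g⁻¹ ((x.2 : V) + y.2)) + ((x.1 : V) + y.1) - e ((x.1 : V) + y.1) =
        (e (ρ g⁻¹ x.2) + x.1 - e x.1) + (e (ρ g⁻¹ y.2) + y.1 - e y.1)
      simp only [map_add]
      abel
  map_smul' c x := by
    refine Prod.ext (Subtype.ext ?_) (Subtype.ext ?_)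
    · show ρ g (e (c • (x.1 : V))) + c • (x.2 : V) - ρ g (e (ρ g⁻¹ (c • (x.2 : V)))) =
        c • (ρ g (e x.1) + x.2 - ρ g (e (ρ g⁻¹ x.2)))
      simp only [map_smul, smul_sub, smul_add]
    · show e (ρ g⁻¹ (c • (x.2 : V))) + c • (x.1 : V) - e (c • (x.1 : V)) =
        c • (e (ρ g⁻¹ x.2) + x.1 - e x.1)
      simp only [map_smul, smul_sub, smul_add]

/-- the inverse map -/
def qm (U : Submodule R V) (e : V →ₗ[R] V) (g : G) (h1 : ∀ v, e v ∈ U) (h2 : ∀ v, ρ g (e v) ∈ U) :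
    (U × U) →ₗ[R] (U × U) where
  toFun x := (⟨e (ρ g⁻¹ x.1) + x.2 - e x.2, U.sub_mem (U.add_mem (h1 _) x.2.2) (h1 _)⟩,
    ⟨ρ g (e x.2) + x.1 - ρ g (e (ρ g⁻¹ x.1)),
      U.sub_mem (U.add_mem (h2 _) x.1.2) (h2 _)⟩)
  map_add' x y := by
    refine Prod.ext (Subtype.ext ?_) (Subtype.ext ?_)
    · show e (ρ g⁻¹ ((x.1 : V) + y.1)) + ((x.2 : V) + y.2) - e ((x.2 : V) + y.2) =
        (e (ρ g⁻¹ x.1) + x.2 - e x.2) + (e (ρ g⁻¹ y.1) + y.2 - e y.2)
      simp only [map_add]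
      abel
    · show ρ g (e ((x.2 : V) + y.2)) + ((x.1 : V) + y.1) - ρ g (e (ρ g⁻¹ ((x.1 : V) + y.1))) =
        (ρ g (e x.2) + x.1 - ρ g (e (ρ g⁻¹ x.1))) + (ρ g (e y.2) + y.1 - ρ g (e (ρ g⁻¹ y.1)))
      simp only [map_add]
      abel
  map_smul' c x := by
    refine Prod.ext (Subtype.ext ?_) (Subtype.ext ?_)
    · show e (ρ g⁻¹ (c • (x.1 : V))) + c • (x.2 : V) - e (c • (x.2 : V)) =
        c • (e (ρ g⁻¹ x.1) + x.2 - e x.2)
      simp only [map_smul, smul_sub, smul_add]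
    · show ρ g (e (c • (x.2 : V))) + c • (x.1 : V) - ρ g (e (ρ g⁻¹ (c • (x.1 : V)))) =
        c • (ρ g (e x.2) + x.1 - ρ g (e (ρ g⁻¹ x.1)))
      simp only [map_smul, smul_sub, smul_add]

theorem qm_pm (U : Submodule R V) (e : V →ₗ[R] V) (g : G) (h1 : ∀ v, e v ∈ U)
    (h2 : ∀ v, ρ g (e v) ∈ U) (he : ∀ v, e (e v) = e v) (x : U × U) :
    qm ρ U e g h1 h2 (pm ρ U e g h1 h2 x) = x := by
  have k1 : e (ρ g⁻¹ (ρ g (e x.1) + x.2 - ρ g (e (ρ g⁻¹ x.2)))) = e x.1 := by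
    rw [map_sub, map_add, hinv1, hinv1, map_sub, map_add, he, he]
    abel
  have k2 : e (e (ρ g⁻¹ x.2) + x.1 - e x.1) = e (ρ g⁻¹ x.2) := by
    rw [map_sub, map_add, he, he]
    abel
  refine Prod.ext (Subtype.ext ?_) (Subtype.ext ?_)
  · show e (ρ g⁻¹ (ρ g (e x.1) + x.2 - ρ g (e (ρ g⁻¹ x.2)))) +
      (e (ρ g⁻¹ x.2) + x.1 - e x.1) - e (e (ρ g⁻¹ x.2) + x.1 - e x.1) = (x.1 : V)
    rw [k1, k2]
    abel
  · show ρ g (e (e (ρ g⁻¹ x.2) + x.1 - e x.1)) + (ρ g (e x.1) + x.2 - ρ g (e (ρ g⁻¹ x.2))) -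
      ρ g (e (ρ g⁻¹ (ρ g (e x.1) + x.2 - ρ g (e (ρ g⁻¹ x.2))))) = (x.2 : V)
    rw [k1, k2]
    abel

theorem pm_qm (U : Submodule R V) (e : V →ₗ[R] V) (g : G) (h1 : ∀ v, e v ∈ U)
    (h2 : ∀ v, ρ g (e v) ∈ U) (he : ∀ v, e (e v) = e v) (x : U × U) :
    pm ρ U e g h1 h2 (qm ρ U e g h1 h2 x) = x := by
  have k1 : e (e (ρ g⁻¹ x.1) + x.2 - e x.2) = e (ρ g⁻¹ x.1) := by
    rw [map_sub, map_add, he, he]
    abel
  have k2 : e (ρ g⁻¹ (ρ g (e x.2) + x.1 - ρ g (e (ρ g⁻¹ x.1)))) = e x.2 := by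
    rw [map_sub, map_add, hinv1, hinv1, map_sub, map_add, he, he]
    abel
  refine Prod.ext (Subtype.ext ?_) (Subtype.ext ?_)
  · show ρ g (e (e (ρ g⁻¹ x.1) + x.2 - e x.2)) + (ρ g (e x.2) + x.1 - ρ g (e (ρ g⁻¹ x.1))) -
      ρ g (e (ρ g⁻¹ (ρ g (e x.2) + x.1 - ρ g (e (ρ g⁻¹ x.1))))) = (x.1 : V)
    rw [k1, k2]
    abel
  · show e (ρ g⁻¹ (ρ g (e x.2) + x.1 - ρ g (e (ρ g⁻¹ x.1)))) + (e (ρ g⁻¹ x.1) + x.2 - e x.2) -
      e (e (ρ g⁻¹ x.1) + x.2 - e x.2) = (x.2 : V)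
    rw [k1, k2]
    abel

theorem main [IsNoetherianRing R] [Module.Free R V] (hC : ClosedE C)
    (hR : ∀ n : ℕ, C ((Fin n → R) ≃ₗ[R] (Fin n → R))) (N : Subgroup G) [N.Normal] (hQ : C (G ⧸ N))
    (hinj : ∀ n ∈ N, ρ n = 1 → n = 1)
    (hfin : ∀ n ∈ N, (LinearMap.range ((ρ n).toLinearMap - LinearMap.id)).FG) : C G := by
  classical
  refine crit C hC G N hQ fun g E hE hEN => ?_
  -- the projection for `E`
  obtain ⟨E', hE'⟩ : ∃ E' : Set G, E' = E ∪ (fun x => x⁻¹) '' E := ⟨_, rfl⟩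
  have hE'f : Finite E' := by
    rw [hE']
    exact (hE.union (hE.image _)).to_subtype
  have hE'N : ∀ x ∈ E', x ∈ N := by
    intro x hx
    rw [hE'] at hx
    rcases hx with hx | ⟨y, hy, rfl⟩
    · exact hEN hx
    · exact N.inv_mem (hEN hy)
  let φ : V →ₗ[R] (E' → V) := LinearMap.pi fun x => (ρ x).toLinearMap - LinearMap.id
  have hφ : (LinearMap.range φ).FG := by
    refine Submodule.FG.of_le (T := Submodule.pi Set.univ
      (fun x : E' => LinearMap.range ((ρ x).toLinearMap - LinearMap.id)))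
      (Submodule.fg_pi fun x => hfin x (hE'N x x.2)) ?_
    rintro _ ⟨v, rfl⟩ x _
    exact ⟨v, rfl⟩
  obtain ⟨U0, n0, f0, e, heU, heid, heφ, hAU⟩ := exists_dec
    (⨆ x : E', LinearMap.range ((ρ x).toLinearMap - LinearMap.id))
    (Submodule.fg_iSup _ fun x => hfin x (hE'N x x.2)) φ hφ
  have hee : ∀ v, e (e v) = e v := fun v => heid _ (heU v)
  -- properties of the elements of `E'`
  have hx1 : ∀ x ∈ E', ∀ v, ρ x v - v ∈ U0 := by
    intro x hx v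
    exact hAU (Submodule.mem_iSup_of_mem ⟨x, hx⟩ ⟨v, rfl⟩)
  have hx2 : ∀ x ∈ E', ∀ v, ρ x (e v) - e v = ρ x v - v := by
    intro x hx v
    exact congrFun (heφ v) ⟨x, hx⟩
  have hx3 : ∀ x ∈ E', ∀ v, ρ x (v - e v) = v - e v := by
    intro x hx v
    have h1 := hx2 x hx v
    rw [map_sub]
    have h2 : ρ x v = v + (ρ x (e v) - e v) := by rw [h1]; abel
    rw [h2]
    abel
  have hx4 : ∀ x ∈ E', ∀ v, e (ρ x v) = ρ x (e v) := by
    intro x hx v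
    have h1 := heid _ (hx1 x hx v)
    rw [map_sub] at h1
    have h2 := hx2 x hx v
    have h3 : e (ρ x v) = e v + (ρ x v - v) := by rw [← h1]; abel
    rw [h3, ← h2]
    abel
  -- the second projection
  let e' : V →ₗ[R] V := ((ρ g).toLinearMap.comp e).comp (ρ g⁻¹).toLinearMap
  have he' : ∀ v, e' v = ρ g (e (ρ g⁻¹ v)) := fun v => rfl
  have hU0 : U0.FG := by
    have : Module.Finite R U0 := Module.Finite.equiv f0.symm
    exact Module.Finite.iff_fg.1 this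
  have hU0' : (U0.map (ρ g).toLinearMap).FG := hU0.map _
  let φ2 : V →ₗ[R] V × V := e.prod e'
  have hφ2 : (LinearMap.range φ2).FG := by
    refine Submodule.FG.of_le (T := U0.prod (U0.map (ρ g).toLinearMap)) (hU0.prod hU0') ?_
    rintro _ ⟨v, rfl⟩
    exact ⟨heU v, ⟨_, heU (ρ g⁻¹ v), rfl⟩⟩
  obtain ⟨U, n, f, ε, hεU, hεid, hεφ, hAU2⟩ := exists_dec
    (U0 ⊔ U0.map (ρ g).toLinearMap) (hU0.sup hU0') φ2 hφ2
  have hU1 : ∀ v ∈ U0, v ∈ U := fun v hv => hAU2 (Submodule.mem_sup_left hv)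
  have hU2 : ∀ v ∈ U0, ρ g v ∈ U := fun v hv => hAU2 (Submodule.mem_sup_right ⟨v, hv, rfl⟩)
  have hε1 : ∀ v, e (ε v) = e v := fun v => congrArg Prod.fst (hεφ v)
  have hε2 : ∀ v, e' (ε v) = e' v := fun v => congrArg Prod.snd (hεφ v)
  have hε3 : ∀ v, ε v = 0 → e v = 0 := by
    intro v hv
    rw [← hε1, hv, map_zero]
  have hε4 : ∀ v, ε v = 0 → e (ρ g⁻¹ v) = 0 := by
    intro v hv
    have h1 : e' v = 0 := by rw [← hε2, hv, map_zero]
    rw [he'] at h1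
    have h2 := congrArg (ρ g⁻¹) h1
    rwa [hinv1, map_zero] at h2
  -- the subgroup
  have hsub : ∀ x ∈ E', x ∈ TT ρ U ε ∧ g * x * g⁻¹ ∈ TT ρ U ε := by
    have ha : ∀ x ∈ E', ∀ u ∈ U, ρ x u ∈ U := by
      intro x hx u hu
      have h1 : ρ x u = (ρ x u - u) + u := by abel
      rw [h1]
      exact U.add_mem (hU1 _ (hx1 x hx u)) hu
    have hb : ∀ x ∈ E', ∀ u ∈ U, ρ (g * x * g⁻¹) u ∈ U := by
      intro x hx u hu
      have h1 : ρ (g * x * g⁻¹) u = ρ g (ρ x (ρ g⁻¹ u) - ρ g⁻¹ u) + u := by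
        rw [hmul, hmul, map_sub, hinv2]
        abel
      rw [h1]
      exact U.add_mem (hU2 _ (hx1 x hx _)) hu
    have hinv : ∀ x ∈ E', x⁻¹ ∈ E' := by
      intro x hx
      rw [hE'] at hx ⊢
      rcases hx with hx | ⟨y, hy, rfl⟩
      · exact Or.inr ⟨x, hx, rfl⟩
      · left
        show (y⁻¹)⁻¹ ∈ E
        rwa [inv_inv]
    intro x hx
    refine ⟨⟨ha x hx, ha x⁻¹ (hinv x hx), fun v hv => ?_⟩, hb x hx, ?_, fun v hv => ?_⟩
    · have h1 := hx3 x hx v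
      rwa [hε3 v hv, sub_zero] at h1
    · have h1 : (g * x * g⁻¹)⁻¹ = g * x⁻¹ * g⁻¹ := by group
      rw [h1]
      exact hb x⁻¹ (hinv x hx)
    · have h1 := hx3 x hx (ρ g⁻¹ v)
      rw [hε4 v hv, sub_zero] at h1
      rw [hmul, hmul, h1, hinv2]
  have hEE' : ∀ x ∈ E, x ∈ E' := fun x hx => by rw [hE']; exact Or.inl hx
  have hcl : Subgroup.closure (E ∪ (fun x => g * x * g⁻¹) '' E) ≤ TT ρ U ε := by
    rw [Subgroup.closure_le]
    rintro x (hx | ⟨y, hy, rfl⟩)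
    · exact (hsub x (hEE' x hx)).1
    · exact (hsub y (hEE' y hy)).2
  have hclN : Subgroup.closure (E ∪ (fun x => g * x * g⁻¹) '' E) ≤ N := by
    rw [Subgroup.closure_le]
    rintro x (hx | ⟨y, hy, rfl⟩)
    · exact hEN hx
    · exact ‹N.Normal›.conj_mem y (hEN hy) g
  have hp1 : ∀ v, e v ∈ U := fun v => hU1 _ (heU v)
  have hp2 : ∀ v, ρ g (e v) ∈ U := fun v => hU2 _ (heU v)
  let p : (U × U) ≃ₗ[R] (U × U) :=
    { pm ρ U e g hp1 hp2 with
      invFun := qm ρ U e g hp1 hp2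
      left_inv := qm_pm ρ U e g hp1 hp2 hee
      right_inv := pm_qm ρ U e g hp1 hp2 hee }
  have hpp : ∀ x, p x = pm ρ U e g hp1 hp2 x := fun x => rfl
  refine ⟨(U × U) ≃ₗ[R] (U × U), inferInstance, (rest ρ U ε).comp (Subgroup.inclusion hcl), p,
    C_prod hC.base hR f, ?_, ?_⟩
  · rw [injective_iff_map_eq_one]
    rintro ⟨x, hx⟩ h1
    have h2 : ∀ u ∈ U, ρ x u = u := by
      intro u hu
      have h3 := LinearEquiv.congr_fun h1 (⟨u, hu⟩, 0)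
      have h4 := congrArg (fun z : U × U => (z.1 : V)) h3
      exact h4
    have h3 : ρ x = 1 := by
      apply LinearEquiv.ext
      intro v
      have h4 : ε (v - ε v) = 0 := by
        rw [map_sub, hεid _ (hεU v), sub_self]
      have h5 := (hcl hx).2.2 _ h4
      rw [map_sub, h2 _ (hεU v)] at h5
      exact sub_left_injective h5
    exact Subtype.ext (hinj x (hclN hx) h3)
  · rintro ⟨x, hx⟩ ⟨y, hy⟩ hxE hyx
    have hyx' : y = g * x * g⁻¹ := hyx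
    subst hyx'
    have hxE' : x ∈ E' := hEE' x hxE
    rw [eq_mul_inv_iff_mul_eq]
    apply LinearEquiv.ext
    rintro ⟨a, z⟩
    show rest ρ U ε ⟨g * x * g⁻¹, hcl hy⟩ (pm ρ U e g hp1 hp2 (a, z)) =
      pm ρ U e g hp1 hp2 (rest ρ U ε ⟨x, hcl hx⟩ (a, z))
    refine Prod.ext (Subtype.ext ?_) (Subtype.ext ?_)
    · show ρ (g * x * g⁻¹) (ρ g (e a) + z - ρ g (e (ρ g⁻¹ z))) =
        ρ g (e (ρ x a)) + z - ρ g (e (ρ g⁻¹ z))
      rw [hmul, hmul, map_sub, map_add, hinv1, hinv1, add_sub_assoc, map_add, map_add,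
        hx3 x hxE', hx4 x hxE', map_sub, hinv2, add_sub_assoc]
    · show e (ρ g⁻¹ z) + (a : V) - e a = e (ρ g⁻¹ z) + ρ x a - e (ρ x a)
      rw [hx4 x hxE', add_sub_assoc, add_sub_assoc]
      have h1 := hx3 x hxE' (a : V)
      rw [map_sub] at h1
      rw [h1]

end main

end Pool.Agent.Helper30K9.FJ4
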